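import Pool.Agent.N422.NWS.Stm

/-! Project NWS, package SEQ: the kernel of one site is almost adjoint. -/

set_option autoImplicit false

open Finset

namespace Pool.Agent.U913.NWS

open Pool.Agent.N422.NW Pool.Agent.N422.NWS

section general

theorem sum_powerset_union {α : Type*} [DecidableEq α] {A B : Finset α} (h : Disjoint A B)
    (f : Finset α → ℝ) :
    ∑ T ∈ (A ∪ B).powerset, f T = ∑ S ∈ A.powerset, ∑ R ∈ B.powerset, f (S ∪ R) := by
  rw [← Finset.sum_product']
  symm
  refine Finset.sum_nbij' (fun p => p.1 ∪ p.2) (fun T => (T ∩ A, T ∩ B)) ?_ ?_ ?_ ?_ ?_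
  · rintro ⟨S, R⟩ hp
    simp only [mem_product, mem_powerset] at hp ⊢
    exact union_subset_union hp.1 hp.2
  · intro T _
    simp only [mem_product, mem_powerset]
    exact ⟨inter_subset_right, inter_subset_right⟩
  · rintro ⟨S, R⟩ hp
    simp only [mem_product, mem_powerset] at hp
    have h1 : R ∩ A = ∅ := by
      ext x
      simp only [mem_inter, notMem_empty, iff_false, not_and]
      exact fun hx hA => Finset.disjoint_left.1 h hA (hp.2 hx)
    have h2 : S ∩ B = ∅ := by
      ext x
      simp only [mem_inter, notMem_empty, iff_false, not_and]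
      exact fun hx hB => Finset.disjoint_left.1 h (hp.1 hx) hB
    simp only [Finset.union_inter_distrib_right, h1, h2, Finset.inter_eq_left.2 hp.1,
      Finset.inter_eq_left.2 hp.2, union_empty, empty_union]
  · intro T hT
    rw [mem_powerset] at hT
    simp only
    rw [← Finset.inter_union_distrib_left]
    exact Finset.inter_eq_left.2 hT
  · intro p _
    rfl

/-- the sum of product weights -/
theorem sum_prod_ite {α : Type*} [DecidableEq α] (W : Finset α) (a b : α → ℝ) :
    ∑ S ∈ W.powerset, ∏ i ∈ W, (if i ∈ S then a i else b i) = ∏ i ∈ W, (a i + b i) := by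
  rw [Finset.prod_add]
  refine Finset.sum_congr rfl fun S hS => ?_
  rw [mem_powerset] at hS
  rw [Finset.prod_ite]
  congr 1
  · refine Finset.prod_congr ?_ fun _ _ => rfl
    ext x
    simp only [mem_filter]
    exact ⟨fun h => h.2, fun h => ⟨hS h, h⟩⟩
  · refine Finset.prod_congr ?_ fun _ _ => rfl
    ext x
    simp only [mem_filter, mem_sdiff]

end general

variable {N m : ℕ} (k : ℕ) (win : Fin N → ℕ) (cel : Fin N → Fin m) (u : Fin N → ℝ) (σ : ℕ → ℝ)
  (θ : ℕ → Finset (Fin m) → ℝ)

/-- the window -/
def W (l : ℕ) : Finset (Fin N) := univ.filter (fun i => win i = l)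

/-- the windows from `s` on -/
def U (s : ℕ) : Finset (Fin N) := univ.filter (fun i => s ≤ win i)

/-- the tilted law in a window -/
noncomputable def mk (l : ℕ) (T : Finset (Fin N)) : ℝ :=
  ∏ i ∈ W win l, (if i ∈ T then u i * (1 + 2 * k * u i) else 1 - u i)

/-- the factor of a window, alive -/
noncomputable def gg (l : ℕ) (T' S : Finset (Fin N)) : ℝ :=
  (1 - θ l ((Tl win S l).image cel)) / (1 - σ l) *
    ((1 - σ l) * (if Tl win T' l = Tl win S l then 1 else 0) +
      mW win u l T' * θ l ((Tl win T' l).image cel))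

/-- the factor of a window -/
noncomputable def fac (l : ℕ) (T' T : Finset (Fin N)) : ℝ :=
  if (∀ i ∈ T, l ≤ win i) then gg win cel u σ θ l T' T else (if Tl win T' l = Tl win T l then 1 else 0)

theorem mk_congr {l : ℕ} {S T : Finset (Fin N)} (h : ∀ i, win i = l → (i ∈ S ↔ i ∈ T)) :
    mk k win u l S = mk k win u l T := by
  refine Finset.prod_congr rfl fun i hi => ?_
  rw [W, mem_filter] at hi
  simp only [h i hi.2]

theorem Tl_congr {l : ℕ} {S T : Finset (Fin N)} (h : ∀ i, win i = l → (i ∈ S ↔ i ∈ T)) :
    Tl win S l = Tl win T l := by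
  ext i
  simp only [Tl, mem_filter]
  constructor
  · rintro ⟨h1, h2⟩
    exact ⟨(h i h2).1 h1, h2⟩
  · rintro ⟨h1, h2⟩
    exact ⟨(h i h2).2 h1, h2⟩

theorem gg_congr {l : ℕ} {T' S T : Finset (Fin N)} (h : ∀ i, win i = l → (i ∈ S ↔ i ∈ T)) :
    gg win cel u σ θ l T' S = gg win cel u σ θ l T' T := by
  unfold gg
  rw [Tl_congr win h]

variable {k win cel u σ θ}

theorem mW_nonneg (hu : ∀ i, 0 ≤ u i ∧ u i ≤ 1 / 2) (l : ℕ) (T : Finset (Fin N)) :
    0 ≤ mW win u l T := by
  unfold mW
  refine Finset.prod_nonneg fun i _ => ?_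
  split_ifs
  · exact (hu i).1
  · linarith [(hu i).2]

theorem mk_nonneg (hu : ∀ i, 0 ≤ u i ∧ u i ≤ 1 / 2) (l : ℕ) (T : Finset (Fin N)) :
    0 ≤ mk k win u l T := by
  unfold mk
  refine Finset.prod_nonneg fun i _ => ?_
  split_ifs
  · have := (hu i).1
    positivity
  · linarith [(hu i).2]

theorem mW_le_mk (hu : ∀ i, 0 ≤ u i ∧ u i ≤ 1 / 2) (l : ℕ) (T : Finset (Fin N)) :
    mW win u l T ≤ mk k win u l T := by
  unfold mW mk W
  refine Finset.prod_le_prod (fun i _ => ?_) fun i _ => ?_
  · split_ifs
    · exact (hu i).1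
    · linarith [(hu i).2]
  · split_ifs
    · have h1 := (hu i).1
      have h2 : 0 ≤ u i * (2 * k * u i) := by positivity
      nlinarith
    · exact le_rfl

theorem sum_mW (hu : ∀ i, 0 ≤ u i ∧ u i ≤ 1 / 2) (l : ℕ) :
    ∑ S ∈ (W win l).powerset, mW win u l S = 1 := by
  have h := sum_prod_ite (W win l) u (fun i => 1 - u i)
  have h2 : ∏ i ∈ W win l, (u i + (1 - u i)) = 1 := by
    refine Finset.prod_eq_one fun i _ => ?_
    ring
  rw [h2] at h
  exact h

theorem sum_mk_le (hu : ∀ i, 0 ≤ u i ∧ u i ≤ 1 / 2) (l : ℕ) :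
    ∑ S ∈ (W win l).powerset, mk k win u l S ≤ Real.exp (2 * k * ∑ i ∈ W win l, u i ^ 2) := by
  have h := sum_prod_ite (W win l) (fun i => u i * (1 + 2 * k * u i)) (fun i => 1 - u i)
  have h2 : ∑ S ∈ (W win l).powerset, mk k win u l S = ∏ i ∈ W win l, (1 + 2 * k * u i ^ 2) := by
    have h3 : ∏ i ∈ W win l, (u i * (1 + 2 * k * u i) + (1 - u i)) =
        ∏ i ∈ W win l, (1 + 2 * k * u i ^ 2) := by
      refine Finset.prod_congr rfl fun i _ => ?_
      ring
    rw [← h3, ← h]
    rfl
  rw [h2, Finset.mul_sum, Real.exp_sum]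
  refine Finset.prod_le_prod (fun i _ => ?_) fun i _ => ?_
  · positivity
  · have := Real.add_one_le_exp (2 * k * u i ^ 2)
    linarith

/-- one window -/
theorem one_window (hu : ∀ i, 0 ≤ u i ∧ u i ≤ 1 / 2) {l : ℕ}
    (hθ : ∀ X, 0 ≤ θ l X ∧ θ l X ≤ 1 / 2)
    (hσ : σ l = ∑ S ∈ (W win l).powerset, mW win u l S * θ l (S.image cel)) (T' : Finset (Fin N)) :
    0 < 1 - σ l ∧ (∀ S, 0 ≤ gg win cel u σ θ l T' S) ∧
    ∑ S ∈ (W win l).powerset, mk k win u l S * gg win cel u σ θ l T' S ≤
      Real.exp (4 * k * ∑ i ∈ W win l, u i ^ 2) * mk k win u l T' := by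
  have hσ2 : σ l ≤ 1 / 2 := by
    rw [hσ]
    calc ∑ S ∈ (W win l).powerset, mW win u l S * θ l (S.image cel) ≤
        ∑ S ∈ (W win l).powerset, mW win u l S * (1 / 2) :=
          Finset.sum_le_sum fun S _ => mul_le_mul_of_nonneg_left (hθ _).2 (mW_nonneg hu l S)
      _ = 1 / 2 := by rw [← Finset.sum_mul, sum_mW hu, one_mul]
  have hpos : 0 < 1 - σ l := by linarith
  have hgg : ∀ S, 0 ≤ gg win cel u σ θ l T' S := by
    intro S
    unfold gg
    have h1 := hθ ((Tl win S l).image cel)
    have h2 := hθ ((Tl win T' l).image cel)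
    have h3 := mW_nonneg (win := win) hu l T'
    refine mul_nonneg (div_nonneg (by linarith) hpos.le) (add_nonneg (mul_nonneg hpos.le ?_)
      (mul_nonneg h3 h2.1))
    split_ifs
    · exact zero_le_one
    · exact le_rfl
  refine ⟨hpos, hgg, ?_⟩
  set x : ℝ := 2 * k * ∑ i ∈ W win l, u i ^ 2 with hx
  have hx0 : 0 ≤ x := by
    rw [hx]
    have : 0 ≤ ∑ i ∈ W win l, u i ^ 2 := Finset.sum_nonneg fun i _ => sq_nonneg _
    positivity
  have he : Real.exp (4 * k * ∑ i ∈ W win l, u i ^ 2) = Real.exp x * Real.exp x := by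
    rw [← Real.exp_add]
    congr 1
    rw [hx]
    ring
  set E := Real.exp x with hE
  have hE1 : 1 ≤ E := Real.one_le_exp hx0
  set θ' := θ l ((Tl win T' l).image cel) with hθ'
  set M := mW win u l T' with hM
  have hM0 : 0 ≤ M := mW_nonneg hu l T'
  have hMk : M ≤ mk k win u l T' := mW_le_mk hu l T'
  -- the sum of the tilted law against `1 - θ`
  have hS : ∑ S ∈ (W win l).powerset, mk k win u l S * (1 - θ l ((Tl win S l).image cel)) ≤
      (1 - σ l) * (E * E) := by
    have h1 : ∀ S ∈ (W win l).powerset, mk k win u l S * (1 - θ l ((Tl win S l).image cel)) ≤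
        mW win u l S * (1 - θ l (S.image cel)) + (mk k win u l S - mW win u l S) := by
      intro S hS
      rw [mem_powerset] at hS
      have h2 : Tl win S l = S := by
        unfold Tl
        refine Finset.filter_true_of_mem fun i hi => ?_
        have := hS hi
        rw [W, mem_filter] at this
        exact this.2
      rw [h2]
      have h3 := hθ (S.image cel)
      have h4 := mW_le_mk (k := k) (win := win) hu l S
      nlinarith
    have h2 := Finset.sum_le_sum h1
    rw [Finset.sum_add_distrib, Finset.sum_sub_distrib, sum_mW hu] at h2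
    have h3 : ∑ S ∈ (W win l).powerset, mW win u l S * (1 - θ l (S.image cel)) = 1 - σ l := by
      rw [hσ]
      simp only [mul_sub, mul_one]
      rw [Finset.sum_sub_distrib, sum_mW hu]
    rw [h3] at h2
    have h4 := sum_mk_le (k := k) (win := win) hu l
    rw [← hx, ← hE] at h4
    nlinarith [mul_nonneg (sub_nonneg.2 hE1) (sub_nonneg.2 hE1), mul_nonneg hpos.le (mul_nonneg (sub_nonneg.2 hE1) (sub_nonneg.2 hE1))]
  -- the diagonal term
  have hD : ∑ S ∈ (W win l).powerset, mk k win u l S * ((1 - θ l ((Tl win S l).image cel)) *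
      (if Tl win T' l = Tl win S l then 1 else 0)) ≤ mk k win u l T' * (1 - θ') := by
    have h1 : ∀ S ∈ (W win l).powerset, mk k win u l S * ((1 - θ l ((Tl win S l).image cel)) *
        (if Tl win T' l = Tl win S l then 1 else 0)) =
        if S = Tl win T' l then mk k win u l T' * (1 - θ') else 0 := by
      intro S hS
      rw [mem_powerset] at hS
      have h2 : Tl win S l = S := by
        unfold Tl
        refine Finset.filter_true_of_mem fun i hi => ?_
        have := hS hi
        rw [W, mem_filter] at this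
        exact this.2
      rw [h2]
      by_cases h : S = Tl win T' l
      · rw [if_pos h, if_pos h.symm, mul_one]
        have h3 : mk k win u l S = mk k win u l T' := by
          refine mk_congr k win u fun i hi => ?_
          rw [h, Tl, mem_filter]
          exact ⟨fun h => h.1, fun h => ⟨h, hi⟩⟩
        rw [h3, h]
      · rw [if_neg h, if_neg (fun h2 => h h2.symm), mul_zero, mul_zero]
    rw [Finset.sum_congr rfl h1, Finset.sum_ite_eq']
    split_ifs
    · exact le_rfl
    · refine mul_nonneg (mk_nonneg hu l T') ?_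
      have := (hθ ((Tl win T' l).image cel)).2
      linarith
  have hsum : ∑ S ∈ (W win l).powerset, mk k win u l S * gg win cel u σ θ l T' S =
      ∑ S ∈ (W win l).powerset, mk k win u l S * ((1 - θ l ((Tl win S l).image cel)) *
      (if Tl win T' l = Tl win S l then 1 else 0)) + M * θ' / (1 - σ l) *
      ∑ S ∈ (W win l).powerset, mk k win u l S * (1 - θ l ((Tl win S l).image cel)) := by
    rw [Finset.mul_sum, ← Finset.sum_add_distrib]
    refine Finset.sum_congr rfl fun S _ => ?_
    unfold gg
    rw [← hM, ← hθ']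
    field_simp
  rw [hsum, he]
  have h5 : M * θ' / (1 - σ l) *
      ∑ S ∈ (W win l).powerset, mk k win u l S * (1 - θ l ((Tl win S l).image cel)) ≤
      M * θ' * (E * E) := by
    have h6 : 0 ≤ M * θ' / (1 - σ l) := div_nonneg (mul_nonneg hM0 (hθ _).1) hpos.le
    refine (mul_le_mul_of_nonneg_left hS h6).trans (le_of_eq ?_)
    field_simp
  have h7 : 0 ≤ θ' := (hθ _).1
  have h8 : θ' ≤ 1 / 2 := (hθ _).2
  have h9 : 0 ≤ mk k win u l T' := mk_nonneg hu l T'
  have h10 : 1 ≤ E * E := by nlinarith
  have h11 : M * θ' * (E * E) ≤ mk k win u l T' * θ' * (E * E) := by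
    refine mul_le_mul_of_nonneg_right (mul_le_mul_of_nonneg_right hMk h7) (by positivity)
  have h12 : mk k win u l T' * (1 - θ') ≤ mk k win u l T' * (1 - θ') * (E * E) :=
    le_mul_of_one_le_right (mul_nonneg h9 (by linarith)) h10
  nlinarith

/-- dead windows -/
theorem dead_sum (hu : ∀ i, 0 ≤ u i ∧ u i ≤ 1 / 2) {L : ℕ} (hL : ∀ i, win i < L) (s : ℕ)
    (T' : Finset (Fin N)) :
    ∑ R ∈ (U win s).powerset, ∏ l ∈ Ico s L, (mk k win u l R *
      (if Tl win T' l = Tl win R l then (1 : ℝ) else 0)) ≤ ∏ l ∈ Ico s L, mk k win u l T' := by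
  have h1 : ∀ R ∈ (U win s).powerset, ∏ l ∈ Ico s L, (mk k win u l R *
      (if Tl win T' l = Tl win R l then (1 : ℝ) else 0)) =
      if R = T' ∩ U win s then ∏ l ∈ Ico s L, mk k win u l T' else 0 := by
    intro R hR
    rw [mem_powerset] at hR
    by_cases h : R = T' ∩ U win s
    · rw [if_pos h]
      refine Finset.prod_congr rfl fun l hl => ?_
      rw [mem_Ico] at hl
      have h2 : ∀ i, win i = l → (i ∈ R ↔ i ∈ T') := by
        intro i hi
        rw [h, mem_inter, U, mem_filter]
        exact ⟨fun h => h.1, fun h => ⟨h, mem_univ _, by omega⟩⟩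
      rw [mk_congr k win u h2, Tl_congr win h2, if_pos rfl, mul_one]
    · rw [if_neg h]
      have : ∃ l ∈ Ico s L, Tl win T' l ≠ Tl win R l := by
        by_contra hc
        push Not at hc
        apply h
        ext i
        rw [mem_inter]
        constructor
        · intro hi
          have h3 := hR hi
          have h3' := h3
          rw [U, mem_filter] at h3'
          have h4 := hc (win i) (mem_Ico.2 ⟨h3'.2, hL i⟩)
          have h5 : i ∈ Tl win R (win i) := by
            rw [Tl, mem_filter]
            exact ⟨hi, rfl⟩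
          rw [← h4, Tl, mem_filter] at h5
          exact ⟨h5.1, h3⟩
        · rintro ⟨hi, h3⟩
          have h3' := h3
          rw [U, mem_filter] at h3'
          have h4 := hc (win i) (mem_Ico.2 ⟨h3'.2, hL i⟩)
          have h5 : i ∈ Tl win T' (win i) := by
            rw [Tl, mem_filter]
            exact ⟨hi, rfl⟩
          rw [h4, Tl, mem_filter] at h5
          exact h5.1
      obtain ⟨l, hl, hne⟩ := this
      refine Finset.prod_eq_zero hl ?_
      rw [if_neg hne, mul_zero]
  rw [Finset.sum_congr rfl h1, Finset.sum_ite_eq']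
  split_ifs
  · exact le_rfl
  · exact Finset.prod_nonneg fun l _ => mk_nonneg hu l T'

/-- the induction -/
theorem step (hu : ∀ i, 0 ≤ u i ∧ u i ≤ 1 / 2) {L : ℕ} (hL : ∀ i, win i < L)
    (hθ : ∀ l < L, ∀ X, 0 ≤ θ l X ∧ θ l X ≤ 1 / 2)
    (hσ : ∀ l < L, σ l = ∑ S ∈ (W win l).powerset, mW win u l S * θ l (S.image cel))
    (T' : Finset (Fin N)) (j s : ℕ) (hj : s + j = L) :
    ∑ T ∈ (U win s).powerset, ∏ l ∈ Ico s L, (mk k win u l T * fac win cel u σ θ l T' T) ≤
      ∏ l ∈ Ico s L, (Real.exp (4 * k * ∑ i ∈ W win l, u i ^ 2) * mk k win u l T') := by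
  induction j generalizing s with
  | zero =>
    have h1 : U win s = ∅ := by
      refine Finset.filter_false_of_mem fun i _ => ?_
      have := hL i
      omega
    have h2 : Ico s L = ∅ := by
      rw [Finset.Ico_eq_empty_iff]
      omega
    simp [h1, h2]
  | succ j ih =>
    have hs : s < L := by omega
    have hUW : U win s = W win s ∪ U win (s + 1) := by
      ext i
      simp only [U, W, mem_union, mem_filter, mem_univ, true_and]
      omega
    have hdis : Disjoint (W win s) (U win (s + 1)) := by
      rw [Finset.disjoint_left]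
      intro i h1 h2
      rw [W, mem_filter] at h1
      rw [U, mem_filter] at h2
      omega
    have hR0 : 0 ≤ ∏ l ∈ Ico (s + 1) L, (Real.exp (4 * k * ∑ i ∈ W win l, u i ^ 2) *
        mk k win u l T') :=
      Finset.prod_nonneg fun l _ => mul_nonneg (Real.exp_pos _).le (mk_nonneg hu l T')
    obtain ⟨hpos, hgg, hone⟩ := one_window (k := k) (cel := cel) hu (hθ s hs) (hσ s hs) T'
    rw [hUW, sum_powerset_union hdis, Finset.prod_eq_prod_Ico_succ_bot hs]
    have hinner : ∀ S ∈ (W win s).powerset, ∑ R ∈ (U win (s + 1)).powerset,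
        ∏ l ∈ Ico s L, (mk k win u l (S ∪ R) * fac win cel u σ θ l T' (S ∪ R)) ≤
        mk k win u s S * gg win cel u σ θ s T' S *
          ∏ l ∈ Ico (s + 1) L, (Real.exp (4 * k * ∑ i ∈ W win l, u i ^ 2) * mk k win u l T') := by
      intro S hS
      rw [mem_powerset] at hS
      have hSw : ∀ i ∈ S, win i = s := by
        intro i hi
        have := hS hi
        rw [W, mem_filter] at this
        exact this.2
      have e1 : ∀ R ∈ (U win (s + 1)).powerset,
          ∏ l ∈ Ico s L, (mk k win u l (S ∪ R) * fac win cel u σ θ l T' (S ∪ R)) =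
          (mk k win u s S * gg win cel u σ θ s T' S) *
            ∏ l ∈ Ico (s + 1) L, (mk k win u l R * (if S = ∅ then fac win cel u σ θ l T' R else
              (if Tl win T' l = Tl win R l then 1 else 0))) := by
        intro R hR
        rw [mem_powerset] at hR
        have hRw : ∀ i ∈ R, s + 1 ≤ win i := by
          intro i hi
          have := hR hi
          rw [U, mem_filter] at this
          exact this.2
        rw [Finset.prod_eq_prod_Ico_succ_bot hs]
        have c0 : ∀ i, win i = s → (i ∈ S ∪ R ↔ i ∈ S) := by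
          intro i hi
          rw [mem_union]
          constructor
          · rintro (h | h)
            · exact h
            · have := hRw i h
              omega
          · exact Or.inl
        have a0 : fac win cel u σ θ s T' (S ∪ R) = gg win cel u σ θ s T' S := by
          unfold fac
          rw [if_pos, gg_congr win cel u σ θ c0]
          intro i hi
          rw [mem_union] at hi
          rcases hi with h | h
          · exact (hSw i h).ge
          · have := hRw i h
            omega
        rw [a0, mk_congr k win u c0]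
        congr 1
        refine Finset.prod_congr rfl fun l hl => ?_
        rw [mem_Ico] at hl
        have c1 : ∀ i, win i = l → (i ∈ S ∪ R ↔ i ∈ R) := by
          intro i hi
          rw [mem_union]
          constructor
          · rintro (h | h)
            · have := hSw i h
              omega
            · exact h
          · exact Or.inr
        rw [mk_congr k win u c1]
        congr 1
        by_cases hE : S = ∅
        · rw [if_pos hE, hE, Finset.empty_union]
        · rw [if_neg hE]
          unfold fac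
          rw [if_neg, Tl_congr win c1]
          intro hall
          obtain ⟨i, hi⟩ := Finset.nonempty_iff_ne_empty.2 hE
          have h1 := hall i (mem_union_left _ hi)
          have h2 := hSw i hi
          omega
      rw [Finset.sum_congr rfl e1, ← Finset.mul_sum]
      refine mul_le_mul_of_nonneg_left ?_ (mul_nonneg (mk_nonneg hu s S) (hgg S))
      by_cases hE : S = ∅
      · simp only [if_pos hE]
        exact ih (s + 1) (by omega)
      · simp only [if_neg hE]
        refine (dead_sum (k := k) hu hL (s + 1) T').trans ?_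
        refine Finset.prod_le_prod (fun l _ => mk_nonneg hu l T') fun l _ => ?_
        refine le_mul_of_one_le_left (mk_nonneg hu l T') (Real.one_le_exp ?_)
        have : 0 ≤ ∑ i ∈ W win l, u i ^ 2 := Finset.sum_nonneg fun i _ => sq_nonneg _
        positivity
    refine (Finset.sum_le_sum hinner).trans ?_
    rw [← Finset.sum_mul]
    exact mul_le_mul_of_nonneg_right hone hR0

theorem prod_windows {L : ℕ} (hL : ∀ i, win i < L) (f : Fin N → ℝ) :
    ∏ l ∈ range L, ∏ i ∈ W win l, f i = ∏ i, f i := by
  have h := Finset.prod_fiberwise_of_maps_to (s := univ) (t := range L) (g := win)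
    (fun i _ => mem_range.2 (hL i)) f
  exact h

theorem sum_windows {L : ℕ} (hL : ∀ i, win i < L) (f : Fin N → ℝ) :
    ∑ l ∈ range L, ∑ i ∈ W win l, f i = ∑ i, f i := by
  have h := Finset.sum_fiberwise_of_maps_to (s := univ) (t := range L) (g := win)
    (fun i _ => mem_range.2 (hL i)) f
  exact h

/-- Package SEQ. -/
theorem t_SEQ : Pool.Agent.N422.NWS.S_SEQ := by
  intro N m L k win cel u σ θ hL hu hθ hσ T'
  have h := step (k := k) (cel := cel) hu hL hθ hσ T' L 0 (by omega)
  have h1 : (U win 0).powerset = univ := by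
    ext T
    simp [U]
  rw [h1] at h
  simp only [Nat.Ico_zero_eq_range] at h
  have h2 : ∀ T : Finset (Fin N), muPl k u T * PW win cel L σ θ T * KW win cel u L σ θ T T' =
      ∏ l ∈ range L, (mk k win u l T * fac win cel u σ θ l T' T) := by
    intro T
    have h3 : muPl k u T = ∏ l ∈ range L, mk k win u l T := by
      unfold muPl mk
      rw [prod_windows hL]
    rw [h3, PW, KW, Finset.prod_mul_distrib, mul_assoc, ← Finset.prod_mul_distrib]
    congr 1
    refine Finset.prod_congr rfl fun l _ => ?_
    unfold fac gg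
    by_cases h4 : ∀ i ∈ T, l ≤ win i
    · rw [if_pos h4, if_pos h4, if_pos h4]
    · rw [if_neg h4, if_neg h4, if_neg h4, one_mul]
  rw [Finset.sum_congr rfl fun T _ => h2 T]
  refine h.trans (le_of_eq ?_)
  rw [Finset.prod_mul_distrib, ← Real.exp_sum]
  congr 1
  · congr 1
    rw [← Finset.mul_sum, sum_windows hL]
  · unfold muPl mk
    rw [prod_windows hL]

end Pool.Agent.U913.NWS
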